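import Pool.Agent.Helper16.RobFinal

namespace Pool.Agent.Results.MP_b5447f_gt.CubeNotMaximal

open Pool.Agent.Helper16.Rob

/-- The cube does not have maximal downward full robustness in its class `{6, 8}`: some convex
body of the class `{6, 8}` is strictly more robust. -/
theorem result : InClass 6 8 cube ∧
    ∃ K : Set E3, InClass 6 8 K ∧ robustness cube < robustness K :=
  main

end Pool.Agent.Results.MP_b5447f_gt.CubeNotMaximal
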